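import Pool.Agent.H70.PT.Targets
import Pool.Agent.H43.TG.RDB

/-!
# The double pass on the symbols (row WRD of bwp_modules)
-/

set_option autoImplicit false

open List Finset Pool.Agent.H68.TG Pool.Agent.H75.RW Pool.Agent.H70.PT

namespace Pool.Agent.H67.PT

theorem pst_zero {r : ℕ} (a : Bool) (X : Fin r → ℕ) : pst a X 0 = a := by
  simp [pst]

theorem pst_succ {r : ℕ} (a : Bool) (X : Fin (r + 1) → ℕ) (i : ℕ) :
    pst a X (i + 1) = pst (xor a (X 0).bodd) (fun j => X j.succ) i := by
  unfold pst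
  rw [Fin.sum_univ_succ]
  have h1 : (∑ j : Fin r, if ((j.succ : Fin (r + 1)) : ℕ) < i + 1 then X j.succ else 0) =
      ∑ j : Fin r, if (j : ℕ) < i then X j.succ else 0 := by
    refine Finset.sum_congr rfl fun j _ => ?_
    simp
  rw [h1]
  simp only [Fin.val_zero, Nat.zero_lt_succ, if_true, Nat.bodd_add, Bool.xor_assoc]

/-- the symbols after the first pass -/
def bv {r : ℕ} (Z W : Fin r → ℕ) : List Bool :=
  (List.ofFn fun i => (Z i, W i)).flatMap fun b => replicate b.1 true ++ replicate b.2 false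

theorem bw_succ {r : ℕ} (X Y : Fin (r + 1) → ℕ) :
    bw X Y = (replicate (X 0) false ++ replicate (Y 0) true) ++
      bw (fun j => X j.succ) (fun j => Y j.succ) := by
  unfold bw
  rw [List.ofFn_succ, List.flatMap_cons]

theorem bv_succ {r : ℕ} (X Y : Fin (r + 1) → ℕ) :
    bv X Y = (replicate (X 0) true ++ replicate (Y 0) false) ++
      bv (fun j => X j.succ) (fun j => Y j.succ) := by
  unfold bv
  rw [List.ofFn_succ, List.flatMap_cons]

theorem first (r : ℕ) : ∀ (a : Bool) (X Y : Fin r → ℕ),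
    tr a (bw X Y) = bv (fun i => hf (pst a X i) (X i)) (fun i => t3 (pst a X (i + 1)) (Y i)) ∧
      st a (bw X Y) = pst a X r := by
  obtain ⟨-, -, -, -, happ, htt, hff, -, -⟩ := Pool.Agent.H43.TG.pf_RDB
  induction r with
  | zero =>
    intro a X Y
    refine ⟨?_, ?_⟩
    · simp [bw, bv, tr]
    · rw [pst_zero]
      simp [bw, st]
  | succ r ih =>
    intro a X Y
    obtain ⟨ih1, ih2⟩ := ih (xor a (X 0).bodd) (fun j => X j.succ) (fun j => Y j.succ)
    have e1 : tr a (replicate (X 0) false ++ replicate (Y 0) true) =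
        replicate (hf a (X 0)) true ++ replicate (t3 (xor a (X 0).bodd) (Y 0)) false := by
      rw [(happ _ _ _).1, (hff _ _).1, (hff _ _).2, (htt _ _).1]
    have e2 : st a (replicate (X 0) false ++ replicate (Y 0) true) = xor a (X 0).bodd := by
      rw [(happ _ _ _).2, (hff _ _).2, (htt _ _).2]
    refine ⟨?_, ?_⟩
    · rw [bw_succ, (happ _ _ _).1, e1, e2, ih1, bv_succ]
      have f0 : pst a X ((0 : Fin (r + 1)) : ℕ) = a := pst_zero a X
      have f1 : pst a X (((0 : Fin (r + 1)) : ℕ) + 1) = xor a (X 0).bodd := by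
        rw [Fin.val_zero, pst_succ, pst_zero]
      have f2 : (fun j : Fin r => hf (pst a X (j.succ : Fin (r + 1))) (X j.succ)) =
          fun j : Fin r => hf (pst (xor a (X 0).bodd) (fun j => X j.succ) j) (X j.succ) := by
        funext j
        rw [Fin.val_succ, pst_succ]
      have f3 : (fun j : Fin r => t3 (pst a X ((j.succ : Fin (r + 1)) + 1)) (Y j.succ)) =
          fun j : Fin r => t3 (pst (xor a (X 0).bodd) (fun j => X j.succ) (j + 1))
            (Y j.succ) := by
        funext j
        rw [Fin.val_succ, pst_succ]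
      rw [f0, f1, f2, f3]
    · rw [bw_succ, (happ _ _ _).2, e2, ih2, pst_succ]

theorem second (r : ℕ) : ∀ (b : Bool) (Z W : Fin r → ℕ),
    tr b (bv Z W) = bw (fun i => t3 (pst b W i) (Z i)) (fun i => hf (pst b W i) (W i)) ∧
      st b (bv Z W) = pst b W r := by
  obtain ⟨-, -, -, -, happ, htt, hff, -, -⟩ := Pool.Agent.H43.TG.pf_RDB
  induction r with
  | zero =>
    intro b Z W
    refine ⟨?_, ?_⟩
    · simp [bw, bv, tr]
    · rw [pst_zero]
      simp [bv, st]
  | succ r ih =>
    intro b Z W
    obtain ⟨ih1, ih2⟩ := ih (xor b (W 0).bodd) (fun j => Z j.succ) (fun j => W j.succ)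
    have e1 : tr b (replicate (Z 0) true ++ replicate (W 0) false) =
        replicate (t3 b (Z 0)) false ++ replicate (hf b (W 0)) true := by
      rw [(happ _ _ _).1, (htt _ _).1, (htt _ _).2, (hff _ _).1]
    have e2 : st b (replicate (Z 0) true ++ replicate (W 0) false) = xor b (W 0).bodd := by
      rw [(happ _ _ _).2, (htt _ _).2, (hff _ _).2]
    refine ⟨?_, ?_⟩
    · rw [bv_succ, (happ _ _ _).1, e1, e2, ih1, bw_succ]
      have f0 : pst b W ((0 : Fin (r + 1)) : ℕ) = b := pst_zero b W
      have f2 : (fun j : Fin r => t3 (pst b W (j.succ : Fin (r + 1))) (Z j.succ)) =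
          fun j : Fin r => t3 (pst (xor b (W 0).bodd) (fun j => W j.succ) j) (Z j.succ) := by
        funext j
        rw [Fin.val_succ, pst_succ]
      have f3 : (fun j : Fin r => hf (pst b W (j.succ : Fin (r + 1))) (W j.succ)) =
          fun j : Fin r => hf (pst (xor b (W 0).bodd) (fun j => W j.succ) j) (W j.succ) := by
        funext j
        rw [Fin.val_succ, pst_succ]
      rw [f0, f2, f3]
    · rw [bv_succ, (happ _ _ _).2, e2, ih2, pst_succ]

theorem t3_bodd (s : Bool) (x : ℕ) : (t3 s x).bodd = x.bodd := by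
  unfold t3
  cases s
  · simp
  · simp [Nat.bodd_mul]

theorem bodd_sum_congr {ι : Type} (s : Finset ι) (f g : ι → ℕ)
    (h : ∀ i ∈ s, (f i).bodd = (g i).bodd) : (∑ i ∈ s, f i).bodd = (∑ i ∈ s, g i).bodd := by
  classical
  induction s using Finset.induction_on with
  | empty => rfl
  | insert i s hi ih =>
    rw [Finset.sum_insert hi, Finset.sum_insert hi, Nat.bodd_add, Nat.bodd_add,
      h i (Finset.mem_insert_self _ _), ih fun j hj => h j (Finset.mem_insert_of_mem hj)]

theorem pst_congr {r : ℕ} (b : Bool) (W Y : Fin r → ℕ) (h : ∀ i, (W i).bodd = (Y i).bodd)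
    (i : ℕ) : pst b W i = pst b Y i := by
  unfold pst
  rw [bodd_sum_congr Finset.univ (fun j : Fin r => if (j : ℕ) < i then W j else 0)
    (fun j : Fin r => if (j : ℕ) < i then Y j else 0) fun j _ => by
      split_ifs
      · exact h j
      · rfl]

/-- (WRD) the double pass on the symbols. -/
theorem pf_WRD : T_WRD := by
  intro r a X Y
  have h1 := first r a X Y
  have h2 := second r (pst a X r) (fun i => hf (pst a X i) (X i))
    (fun i => t3 (pst a X (i + 1)) (Y i))
  have h3 : Pool.Agent.H68.TG.pass (a, bw X Y) = (pst a X r,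
      bv (fun i => hf (pst a X i) (X i)) (fun i => t3 (pst a X (i + 1)) (Y i))) := by
    unfold Pool.Agent.H68.TG.pass
    rw [h1.1, h1.2]
  have hc : ∀ i : ℕ, pst (pst a X r) (fun i : Fin r => t3 (pst a X (i + 1)) (Y i)) i =
      pst (pst a X r) Y i := fun i => pst_congr _ _ _ (fun j => t3_bodd _ _) i
  rw [h3]
  unfold Pool.Agent.H68.TG.pass
  rw [h2.1, h2.2]
  simp only [hc]
  rfl

end Pool.Agent.H67.PT
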